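import Pool.Agent.H98.PW.Stmts

/-!
# Everything commutes with a change of the ring
-/

set_option autoImplicit false

namespace Pool.PW

open Finset MvPolynomial

theorem map_bb {A B : Type} [CommRing A] [CommRing B] (φ : A →+* B) {n : ℕ}
    (J : Finset (Fin n)) (G : Fin n → MvPolynomial (Fin n) A) :
    map φ (bb J G) = bb J (fun k => map φ (G k)) := by
  unfold bb
  rw [map_prod]
  exact Finset.prod_congr rfl fun k _ => (pderiv_map).symm

theorem map_bk {A B : Type} [CommRing A] [CommRing B] (φ : A →+* B) {n : ℕ}
    (J : Finset (Fin n)) (G : Fin n → MvPolynomial (Fin n) A) (k : Fin n) :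
    map φ (bk J G k) = bk J (fun k => map φ (G k)) k := by
  unfold bk
  rw [map_prod]
  exact Finset.prod_congr rfl fun k _ => (pderiv_map).symm

theorem map_EE {A B : Type} [CommRing A] [CommRing B] (φ : A →+* B) {n : ℕ}
    (J : Finset (Fin n)) (G : Fin n → MvPolynomial (Fin n) A) (i : Fin n)
    (F : MvPolynomial (Fin n) A) :
    map φ (EE J G i F) = EE J (fun k => map φ (G k)) i (map φ F) := by
  unfold EE
  rw [map_sub, map_mul, map_sum, map_bb, pderiv_map]
  congr 1
  refine Finset.sum_congr rfl fun k _ => ?_
  rw [map_mul, map_mul, map_bk, pderiv_map, pderiv_map]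

theorem map_thm : S_MAP := by
  intro A B _ _ φ n J G
  refine ⟨map_bb φ J G, fun i F => map_EE φ J G i F, ?_, ?_⟩
  · intro c sd i s
    unfold xi
    rw [map_sum]
    refine Finset.sum_congr rfl fun k _ => ?_
    rw [map_mul, map_mul, map_C, map_EE, map_X, map_prod]
    congr 1
    exact Finset.prod_congr rfl fun l _ => map_X φ l
  · intro e sd α s
    unfold tmp
    rw [map_mul, map_C, map_natCast, map_prod]
    congr 1
    refine Finset.prod_congr rfl fun k _ => ?_
    rw [map_pow, map_X]

end Pool.PW
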